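import Pool.Agent.N963.GN.Stm

set_option autoImplicit false

/-!
# The classes `App m` (task GN/A)
-/

namespace Pool.Agent.N768.GN

open Complex Filter Topology MeasureTheory Polynomial
open scoped ComplexConjugate
open Pool.Agent.N963.GN

theorem a1 : S_A1 := by
  intro m f hf R ε hε
  obtain ⟨g, hg, hfg⟩ := hf R (ε / 2) (by positivity)
  obtain ⟨P, hP, hd, hgP⟩ := hg R (ε / 2) (by positivity)
  refine ⟨P, hP, hd, fun z hz => ?_⟩
  calc ‖f z - aeval z P‖ = ‖(f z - g z) + (g z - aeval z P)‖ := by ring_nf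
    _ ≤ ‖f z - g z‖ + ‖g z - aeval z P‖ := norm_add_le _ _
    _ ≤ ε / 2 + ε / 2 := add_le_add (hfg z hz) (hgP z hz)
    _ = ε := by ring

/-- card of roots of a multiple of a product of linear factors. -/
theorem card_le_of_mul (s : Multiset ℝ) (Q : ℝ[X]) (hQ : Q ≠ 0) :
    s.card ≤ ((s.map fun a => X - C a).prod * Q).roots.card := by
  have h0 : (s.map fun a => X - C a).prod ≠ 0 := by
    apply Multiset.prod_ne_zero
    intro h
    rw [Multiset.mem_map] at h
    obtain ⟨a, _, ha⟩ := h
    exact X_sub_C_ne_zero a ha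
  rw [roots_mul (mul_ne_zero h0 hQ), roots_multiset_prod_X_sub_C, Multiset.card_add]
  omega

theorem card_roots_comp (P : ℝ[X]) (hP : P ≠ 0) (β : ℝ) :
    P.roots.card ≤ (P.comp (X + C β)).roots.card := by
  obtain ⟨q, hq, -, -⟩ := exists_prod_multiset_X_sub_C_mul P
  have hq0 : q ≠ 0 := by
    rintro rfl
    rw [mul_zero] at hq
    exact hP hq.symm
  have h1 : P.comp (X + C β) =
      ((P.roots.map fun a => a - β).map fun a => X - C a).prod * q.comp (X + C β) := by
    conv_lhs => rw [← hq]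
    rw [mul_comp, Multiset.map_map]
    congr 1
    rw [multiset_prod_comp, Multiset.map_map]
    congr 1
    apply Multiset.map_congr rfl
    intro a _
    simp only [Function.comp, sub_comp, X_comp, C_comp, C_sub]
    ring
  have h2 : q.comp (X + C β) ≠ 0 := by
    intro h
    rw [← taylor_apply] at h
    exact hq0 ((taylor_injective β) (by rw [h, map_zero]))
  have h3 := card_le_of_mul (P.roots.map fun a => a - β) (q.comp (X + C β)) h2
  rw [← h1, Multiset.card_map] at h3
  exact h3

theorem a2 : S_A2 := by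
  intro m f β hf R ε hε
  obtain ⟨P, hP, hd, hfP⟩ := hf (R + |β|) ε hε
  refine ⟨P.comp (X + C β), ?_, ?_, fun z hz => ?_⟩
  · intro h
    rw [← taylor_apply] at h
    exact hP ((taylor_injective β) (by rw [h, map_zero]))
  · rw [natDegree_comp, natDegree_X_add_C, mul_one]
    exact hd.trans (Nat.add_le_add_right (card_roots_comp P hP β) m)
  · have h1 : aeval z (P.comp (X + C β)) = aeval (z + β) P := by
      rw [aeval_comp]
      simp
    rw [h1]
    apply hfP
    calc ‖z + β‖ ≤ ‖z‖ + ‖(β : ℂ)‖ := norm_add_le _ _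
      _ ≤ R + |β| := by
        rw [Complex.norm_real, Real.norm_eq_abs]
        linarith

/-- The auxiliary polynomial. -/
noncomputable def Qn (b : ℝ) (P : ℝ[X]) (n : ℕ) : ℝ[X] :=
  P - C b * derivative P + C (1 / (n : ℝ)) * X * derivative P

theorem Qn_coeff (b : ℝ) (P : ℝ[X]) (n : ℕ) :
    (Qn b P n).coeff P.natDegree = P.leadingCoeff * (1 + P.natDegree / n) := by
  have h1 : (derivative P).coeff P.natDegree = 0 := by
    rw [coeff_derivative, coeff_eq_zero_of_natDegree_lt (Nat.lt_succ_self _), zero_mul]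
  have h2 : (X * derivative P).coeff P.natDegree = P.natDegree * P.leadingCoeff := by
    rcases Nat.eq_zero_or_pos P.natDegree with h | h
    · rw [h, coeff_X_mul_zero]
      simp
    · obtain ⟨k, hk⟩ := Nat.exists_eq_succ_of_ne_zero h.ne'
      rw [hk, coeff_X_mul, coeff_derivative]
      rw [leadingCoeff, hk]
      push_cast
      ring
  rw [Qn, coeff_add, coeff_sub, coeff_C_mul, h1, mul_assoc, coeff_C_mul, h2, leadingCoeff]
  ring

theorem Qn_natDegree (b : ℝ) (P : ℝ[X]) (hP : P ≠ 0) (n : ℕ) (hn : 0 < n) :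
    Qn b P n ≠ 0 ∧ (Qn b P n).natDegree = P.natDegree := by
  have hc : (Qn b P n).coeff P.natDegree ≠ 0 := by
    rw [Qn_coeff]
    apply mul_ne_zero (leadingCoeff_ne_zero.mpr hP)
    positivity
  refine ⟨fun h => hc (by rw [h, coeff_zero]), le_antisymm ?_ (le_natDegree_of_ne_zero hc)⟩
  have hd : (derivative P).natDegree ≤ P.natDegree - 1 := natDegree_derivative_le P
  rw [Qn]
  apply natDegree_add_le_of_degree_le
  · refine (natDegree_sub_le _ _).trans (max_le le_rfl ?_)
    exact (natDegree_C_mul_le _ _).trans (by omega)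
  · rcases eq_or_ne (derivative P) 0 with h | h
    · rw [h, mul_zero, natDegree_zero]
      exact Nat.zero_le _
    · rw [mul_assoc]
      refine (natDegree_C_mul_le _ _).trans ?_
      rw [natDegree_X_mul h]
      have : P.natDegree ≠ 0 := by
        intro h0
        apply h
        rw [natDegree_eq_zero] at h0
        obtain ⟨x, rfl⟩ := h0
        exact derivative_C
      omega

theorem Qn_card (b : ℝ) (P : ℝ[X]) (hP : P ≠ 0) (n : ℕ) (hn : 0 < n) :
    P.roots.card ≤ (Qn b P n).roots.card := by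
  have hn' : (n : ℝ) ≠ 0 := by positivity
  have hQ := (Qn_natDegree b P hP n hn).1
  obtain ⟨k, rfl⟩ := Nat.exists_eq_succ_of_ne_zero hn.ne'
  set n := k.succ with hndef
  set L : ℝ[X] := X - C (n * b) with hL
  have hL0 : L ≠ 0 := X_sub_C_ne_zero _
  -- the function is `L ^ n * P`
  have hder : derivative (L ^ n * P) = L ^ k * (C (n : ℝ) * Qn b P n) := by
    rw [derivative_mul, derivative_pow, hL, derivative_X_sub_C, hndef, Nat.succ_sub_one]
    have h1 : C (((k.succ : ℕ) : ℝ)) * Qn b P k.succ =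
        C (((k.succ : ℕ) : ℝ)) * P + (X - C (((k.succ : ℕ) : ℝ) * b)) * derivative P := by
      have h2 : C (((k.succ : ℕ) : ℝ)) * C (1 / ((k.succ : ℕ) : ℝ)) = (1 : ℝ[X]) := by
        rw [← C_mul, mul_one_div_cancel hn', C_1]
      rw [Qn, mul_add, mul_sub, ← mul_assoc, ← mul_assoc, ← mul_assoc, h2, C_mul]
      ring
    rw [h1, pow_succ]
    ring
  have h1 := card_roots_le_derivative (L ^ n * P)
  rw [hder, roots_mul (mul_ne_zero (pow_ne_zero _ hL0) hP),
    roots_mul (mul_ne_zero (pow_ne_zero _ hL0) (mul_ne_zero (C_ne_zero.mpr hn') hQ)),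
    roots_pow, roots_pow, hL, roots_X_sub_C, roots_C_mul _ hn', Multiset.card_add,
    Multiset.card_add, Multiset.card_nsmul, Multiset.card_nsmul, Multiset.card_singleton] at h1
  simp only [mul_one] at h1
  omega

theorem deriv_aeval (P : ℝ[X]) (z : ℂ) :
    deriv (fun w : ℂ => aeval w P) z = aeval z (derivative P) := by
  exact Polynomial.deriv_aeval P

theorem a3 : S_A3 := by
  intro m f b hf happ
  rcases eq_or_ne b 0 with rfl | hb
  · have : (fun z => f z - ((0 : ℝ) : ℂ) * deriv f z) = f := by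
      funext z
      simp
    rw [this]
    exact happ
  intro R ε hε
  obtain ⟨P, hP, hd, hfP⟩ := happ (R + 1) (ε / (2 * (1 + |b|))) (by positivity)
  -- bound for `P'`
  obtain ⟨M, hM⟩ : ∃ M : ℝ, ∀ z : ℂ, ‖z‖ ≤ R → ‖z * aeval z (derivative P)‖ ≤ M := by
    have hc : IsCompact (Metric.closedBall (0 : ℂ) R) := isCompact_closedBall _ _
    have hcont : ContinuousOn (fun z : ℂ => z * aeval z (derivative P)) (Metric.closedBall 0 R) :=
      (continuous_id.mul (Polynomial.continuous_aeval _)).continuousOn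
    obtain ⟨M, hM⟩ := hc.exists_bound_of_continuousOn hcont
    exact ⟨M, fun z hz => hM z (by simpa using hz)⟩
  obtain ⟨n, hn⟩ := exists_nat_gt (max 1 (2 * M / ε))
  have hn1 : (1 : ℝ) < n := lt_of_le_of_lt (le_max_left _ _) hn
  have hn2 : 2 * M / ε < n := lt_of_le_of_lt (le_max_right _ _) hn
  have hn0 : 0 < n := by
    have : (0 : ℝ) < n := by linarith
    exact_mod_cast this
  obtain ⟨hQ0, hQd⟩ := Qn_natDegree b P hP n hn0
  refine ⟨Qn b P n, hQ0, ?_, fun z hz => ?_⟩
  · rw [hQd]
    exact hd.trans (Nat.add_le_add_right (Qn_card b P hP n hn0) m)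
  have hQe : aeval z (Qn b P n) = aeval z P - b * aeval z (derivative P) +
      (1 / (n : ℝ) : ℝ) * (z * aeval z (derivative P)) := by
    rw [Qn, map_add, map_sub, map_mul, map_mul, map_mul, aeval_C, aeval_C, aeval_X]
    simp only [Complex.coe_algebraMap]
    ring
  have h1 : ‖f z - aeval z P‖ ≤ ε / (2 * (1 + |b|)) := hfP z (by linarith)
  have h2 : ‖deriv f z - aeval z (derivative P)‖ ≤ ε / (2 * (1 + |b|)) := by
    have h3 : deriv (fun w => f w - aeval w P) z = deriv f z - aeval z (derivative P) := by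
      rw [← deriv_aeval]
      exact deriv_sub (hf z) (Polynomial.differentiable_aeval P z)
    rw [← h3]
    have h4 := Complex.norm_deriv_le_of_forall_mem_sphere_norm_le (c := z) (R := 1)
      (C := ε / (2 * (1 + |b|))) (f := fun w => f w - aeval w P) one_pos
      ((hf.sub (Polynomial.differentiable_aeval P)).diffContOnCl) (by
        intro w hw
        apply hfP
        have : ‖w - z‖ = 1 := by simpa [dist_eq_norm] using hw
        calc ‖w‖ = ‖(w - z) + z‖ := by ring_nf
          _ ≤ ‖w - z‖ + ‖z‖ := norm_add_le _ _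
          _ ≤ R + 1 := by linarith)
    simpa using h4
  have h5 : ‖((1 / (n : ℝ) : ℝ) : ℂ) * (z * aeval z (derivative P))‖ ≤ ε / 2 := by
    rw [norm_mul, Complex.norm_real, Real.norm_eq_abs, abs_of_pos (by positivity)]
    calc 1 / (n : ℝ) * ‖z * aeval z (derivative P)‖ ≤ 1 / (n : ℝ) * M := by
          apply mul_le_mul_of_nonneg_left (hM z hz) (by positivity)
      _ ≤ ε / 2 := by
          rw [div_lt_iff₀ hε] at hn2
          rw [one_div, inv_mul_le_iff₀ (by positivity)]
          linarith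
  have h6 : f z - b * deriv f z - aeval z (Qn b P n) =
      (f z - aeval z P) - b * (deriv f z - aeval z (derivative P)) -
        ((1 / (n : ℝ) : ℝ) : ℂ) * (z * aeval z (derivative P)) := by
    rw [hQe]
    ring
  rw [h6]
  calc ‖(f z - aeval z P) - b * (deriv f z - aeval z (derivative P)) -
        ((1 / (n : ℝ) : ℝ) : ℂ) * (z * aeval z (derivative P))‖
      ≤ ‖(f z - aeval z P) - b * (deriv f z - aeval z (derivative P))‖ +
        ‖((1 / (n : ℝ) : ℝ) : ℂ) * (z * aeval z (derivative P))‖ := norm_sub_le _ _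
    _ ≤ (‖f z - aeval z P‖ + ‖(b : ℂ) * (deriv f z - aeval z (derivative P))‖) + ε / 2 :=
        add_le_add (norm_sub_le _ _) h5
    _ ≤ (ε / (2 * (1 + |b|)) + |b| * (ε / (2 * (1 + |b|)))) + ε / 2 := by
        rw [norm_mul, Complex.norm_real, Real.norm_eq_abs]
        gcongr
    _ = ε := by
        field_simp
        ring

theorem a4 : S_A4 := by
  intro m f hf hne happ
  by_contra hinf
  rw [Set.not_finite] at hinf
  obtain ⟨S, hS, hcard⟩ := hinf.exists_subset_card_eq (m + 1)
  obtain ⟨w0, hw0⟩ := hne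
  have hfan : AnalyticOnNhd ℂ f Set.univ := fun z _ => hf.analyticAt z
  have hiso : ∀ s : ℂ, ∀ᶠ z in 𝓝[≠] s, f z ≠ 0 := by
    intro s
    by_contra h
    rw [Filter.not_eventually] at h
    have h1 := hfan.eqOn_zero_of_preconnected_of_frequently_eq_zero isPreconnected_univ
      (Set.mem_univ s) (h.mono fun z hz => by simpa using hz)
    exact hw0 (h1 (Set.mem_univ w0))
  -- choice of the radius
  have hr1 : ∀ s ∈ S, ∀ᶠ r : ℝ in 𝓝[>] 0, (∀ z, ‖z - s‖ ≤ r → z.im ≠ 0) ∧
      (∀ z, ‖z - s‖ = r → f z ≠ 0) := by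
    intro s hs
    have him : s.im ≠ 0 := (hS hs).2
    have h1 : ∀ᶠ r : ℝ in 𝓝[>] 0, r < |s.im| :=
      (eventually_lt_nhds (abs_pos.mpr him)).filter_mono nhdsWithin_le_nhds
    have h2 : ∀ᶠ r : ℝ in 𝓝[>] 0, (∀ z, ‖z - s‖ = r → f z ≠ 0) := by
      have h3 := hiso s
      rw [eventually_nhdsWithin_iff, Metric.eventually_nhds_iff] at h3
      obtain ⟨δ, hδ, h3⟩ := h3
      filter_upwards [self_mem_nhdsWithin,
        (eventually_lt_nhds hδ).filter_mono nhdsWithin_le_nhds] with r hr hr' z hz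
      apply h3
      · rw [dist_eq_norm, hz]
        exact hr'
      · intro hzs
        rw [Set.mem_singleton_iff] at hzs
        rw [hzs, sub_self, norm_zero] at hz
        rw [← hz] at hr
        exact lt_irrefl (0 : ℝ) hr
    filter_upwards [h1, h2] with r hr1 hr2
    refine ⟨fun z hz h0 => ?_, hr2⟩
    have h4 : |(z - s).im| ≤ ‖z - s‖ := Complex.abs_im_le_norm _
    rw [Complex.sub_im, h0, zero_sub, abs_neg] at h4
    linarith
  have hr2 : ∀ s ∈ S, ∀ t ∈ S, ∀ᶠ r : ℝ in 𝓝[>] 0, s ≠ t → 2 * r < ‖s - t‖ := by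
    intro s _ t _
    rcases eq_or_ne s t with rfl | hst
    · exact Filter.Eventually.of_forall fun r h => absurd rfl h
    · have h1 : (0 : ℝ) < ‖s - t‖ / 2 := by
        have := norm_pos_iff.mpr (sub_ne_zero.mpr hst)
        positivity
      filter_upwards [(eventually_lt_nhds h1).filter_mono nhdsWithin_le_nhds] with r hr _
      linarith
  have hall : ∀ᶠ r : ℝ in 𝓝[>] 0, (∀ s ∈ S, (∀ z, ‖z - s‖ ≤ r → z.im ≠ 0) ∧
      (∀ z, ‖z - s‖ = r → f z ≠ 0)) ∧ (∀ s ∈ S, ∀ t ∈ S, s ≠ t → 2 * r < ‖s - t‖) ∧ 0 < r := by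
    refine ((Filter.eventually_all_finset S).mpr hr1).and
      (((Filter.eventually_all_finset S).mpr fun s hs =>
        (Filter.eventually_all_finset S).mpr fun t ht => hr2 s hs t ht).and self_mem_nhdsWithin)
  obtain ⟨r, hA, hB, hr0⟩ := hall.exists
  -- the minimum on the spheres
  obtain ⟨c, hc, hcle⟩ : ∃ c : ℝ, 0 < c ∧ ∀ s ∈ S, ∀ z, ‖z - s‖ = r → c ≤ ‖f z‖ := by
    have hK : IsCompact (⋃ s ∈ S, Metric.sphere s r) := S.isCompact_biUnion fun s _ =>
      isCompact_sphere s r
    have hSne : S.Nonempty := by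
      rw [← Finset.card_pos, hcard]
      omega
    obtain ⟨s0, hs0⟩ := hSne
    have hKne : (⋃ s ∈ S, Metric.sphere s r).Nonempty := by
      refine ⟨s0 + r, ?_⟩
      simp only [Set.mem_iUnion]
      refine ⟨s0, hs0, ?_⟩
      rw [mem_sphere_iff_norm]
      simp [abs_of_pos hr0]
    obtain ⟨x, hx, hmin⟩ := hK.exists_isMinOn hKne hf.continuous.norm.continuousOn
    simp only [Set.mem_iUnion] at hx
    obtain ⟨s, hs, hxs⟩ := hx
    rw [mem_sphere_iff_norm] at hxs
    refine ⟨‖f x‖, norm_pos_iff.mpr ((hA s hs).2 x hxs), fun t ht z hz => ?_⟩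
    apply hmin
    simp only [Set.mem_iUnion]
    exact ⟨t, ht, by rw [mem_sphere_iff_norm]; exact hz⟩
  -- a big disc
  obtain ⟨R, hR⟩ : ∃ R : ℝ, ∀ s ∈ S, ‖s‖ + r ≤ R := by
    refine ⟨∑ s ∈ S, (‖s‖ + r), fun s hs => ?_⟩
    exact Finset.single_le_sum (f := fun s : ℂ => ‖s‖ + r)
      (fun i _ => by positivity) hs
  obtain ⟨P, hP, hd, hfP⟩ := happ R (c / 8) (by positivity)
  -- roots
  have hroot : ∀ s ∈ S, ∃ z : ℂ, ‖z - s‖ ≤ r ∧ aeval z P = 0 := by
    intro s hs
    have hin : ∀ z : ℂ, ‖z - s‖ ≤ r → ‖z‖ ≤ R := by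
      intro z hz
      calc ‖z‖ = ‖(z - s) + s‖ := by ring_nf
        _ ≤ ‖z - s‖ + ‖s‖ := norm_add_le _ _
        _ ≤ R := by linarith [hR s hs]
    have hs0 : ‖aeval s P‖ ≤ c / 8 := by
      have h1 := hfP s (hin s (by simp [hr0.le]))
      rw [(hS hs).1, zero_sub, norm_neg] at h1
      exact h1
    have hsph : ∀ z ∈ Metric.sphere s r, 3 * c / 4 ≤ ‖aeval z P - aeval s P‖ := by
      intro z hz
      rw [mem_sphere_iff_norm] at hz
      have h1 := hfP z (hin z hz.le)
      have h2 := hcle s hs z hz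
      have h3 : ‖f z‖ ≤ ‖f z - aeval z P‖ + ‖aeval z P - aeval s P‖ + ‖aeval s P‖ := by
        calc ‖f z‖ = ‖(f z - aeval z P) + (aeval z P - aeval s P) + aeval s P‖ := by ring_nf
          _ ≤ _ := norm_add₃_le
      linarith
    have hfreq : ∃ᶠ z in 𝓝 s, aeval z P ≠ aeval s P := by
      by_contra h
      rw [Filter.not_frequently] at h
      have hPan : AnalyticOnNhd ℂ (fun z : ℂ => aeval z P) Set.univ := fun z _ =>
        (Polynomial.differentiable_aeval P).analyticAt z
      have h1 := hPan.eqOn_of_preconnected_of_eventuallyEq (g := fun _ => aeval s P)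
        (fun z _ => analyticAt_const) isPreconnected_univ (Set.mem_univ s)
        (h.mono fun z hz => by simpa using hz)
      have hz : s + (r : ℂ) ∈ Metric.sphere s r := by
        rw [mem_sphere_iff_norm]
        simp [abs_of_pos hr0]
      have h2 := hsph _ hz
      have h3 := h1 (Set.mem_univ (s + (r : ℂ)))
      simp only at h3
      rw [h3, sub_self, norm_zero] at h2
      linarith
    have h1 := DiffContOnCl.ball_subset_image_closedBall (f := fun z : ℂ => aeval z P)
      ((Polynomial.differentiable_aeval P).diffContOnCl) hr0 hsph hfreq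
    have h2 : (0 : ℂ) ∈ Metric.ball (aeval s P) (3 * c / 4 / 2) := by
      rw [Metric.mem_ball, dist_zero_left]
      linarith
    obtain ⟨z, hz, hz0⟩ := h1 h2
    exact ⟨z, by simpa [dist_eq_norm] using hz, hz0⟩
  choose! g hg1 hg2 using hroot
  have hinj : Set.InjOn g (S : Set ℂ) := by
    intro s hs t ht hst
    by_contra hne'
    have h1 := hB s hs t ht hne'
    have h2 : ‖s - t‖ ≤ ‖g s - s‖ + ‖g t - t‖ := by
      calc ‖s - t‖ = ‖(g t - t) - (g s - s)‖ := by rw [hst]; ring_nf
        _ ≤ ‖g t - t‖ + ‖g s - s‖ := norm_sub_le _ _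
        _ = _ := add_comm _ _
    have h3 := hg1 s hs
    have h4 := hg1 t ht
    linarith
  obtain ⟨q, hq, hqd, -⟩ := exists_prod_multiset_X_sub_C_mul P
  have hq0 : q ≠ 0 := by
    rintro rfl
    rw [mul_zero] at hq
    exact hP hq.symm
  have hqroot : ∀ s ∈ S, aeval (g s) q = 0 := by
    intro s hs
    have h1 := hg2 s hs
    rw [← hq, map_mul, mul_eq_zero] at h1
    rcases h1 with h1 | h1
    · exfalso
      rw [map_multiset_prod, Multiset.prod_eq_zero_iff, Multiset.map_map, Multiset.mem_map] at h1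
      obtain ⟨a, _, ha⟩ := h1
      simp only [Function.comp, map_sub, aeval_X, aeval_C, Complex.coe_algebraMap] at ha
      have h2 : g s = (a : ℂ) := by
        rw [sub_eq_zero] at ha
        exact ha
      have h3 := (hA s hs).1 (g s) (hg1 s hs)
      rw [h2, Complex.ofReal_im] at h3
      exact h3 rfl
    · exact h1
  classical
  have hqm : q.map (algebraMap ℝ ℂ) ≠ 0 := by
    rw [Polynomial.map_ne_zero_iff (algebraMap ℝ ℂ).injective]
    exact hq0
  have h1 : (S.image g).val ⊆ (q.map (algebraMap ℝ ℂ)).roots := by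
    intro z hz
    rw [Finset.mem_val, Finset.mem_image] at hz
    obtain ⟨s, hs, rfl⟩ := hz
    rw [mem_roots hqm, IsRoot.def, eval_map_algebraMap]
    exact hqroot s hs
  have h2 := card_le_degree_of_subset_roots h1
  rw [Finset.card_image_of_injOn hinj, hcard, natDegree_map] at h2
  omega

end Pool.Agent.N768.GN
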